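import Pool.Agent.TH999.DCN.Sol

set_option autoImplicit false

/-!
# Every `M` divides the denominator of some solution
-/

namespace Pool.Agent.TH999.DCN

/-- the doubling map -/
def dbl (δ : ℤ) (q : ℤ × ℤ × ℤ × ℤ) : ℤ × ℤ × ℤ × ℤ :=
  (q.1 ^ 4 + δ ^ 2 * q.2.1 ^ 4, 2 * q.1 * q.2.2.1 * q.2.2.2 * q.2.1,
    q.1 ^ 4 - 2 * δ * q.1 ^ 2 * q.2.1 ^ 2 - δ ^ 2 * q.2.1 ^ 4,
    q.1 ^ 4 + 2 * δ * q.1 ^ 2 * q.2.1 ^ 2 - δ ^ 2 * q.2.1 ^ 4)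

/-- the sequence of doubles -/
def seq (δ : ℤ) (q : ℤ × ℤ × ℤ × ℤ) : ℕ → ℤ × ℤ × ℤ × ℤ
  | 0 => q
  | n + 1 => dbl δ (seq δ q n)

/-- the quadruple is a solution -/
def IsSol (δ : ℤ) (q : ℤ × ℤ × ℤ × ℤ) : Prop := Sol δ q.1 q.2.1 q.2.2.1 q.2.2.2

variable {δ : ℤ}

lemma seq_sol (hsq : Squarefree δ) (hδ : 0 < δ) {q : ℤ × ℤ × ℤ × ℤ} (h : IsSol δ q) (n : ℕ) :
    IsSol δ (seq δ q n) := by
  induction n with
  | zero => exact h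
  | succ n ih => exact Sol.dbl ih hsq hδ

lemma seq_D_dvd (q : ℤ × ℤ × ℤ × ℤ) {i j : ℕ} (hij : i ≤ j) :
    (seq δ q i).2.1 ∣ (seq δ q j).2.1 := by
  induction j, hij using Nat.le_induction with
  | base => exact dvd_refl _
  | succ j _ ih => exact ih.mul_left _

lemma seq_D_lt (hsq : Squarefree δ) (hδ : 0 < δ) {q : ℤ × ℤ × ℤ × ℤ} (h : IsSol δ q) {i j : ℕ}
    (hij : i < j) : |(seq δ q i).2.1| < |(seq δ q j).2.1| := by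
  have h1 : |(seq δ q i).2.1| < |(seq δ q (i + 1)).2.1| := by
    have hs := seq_sol hsq hδ h i
    have e : (seq δ q (i + 1)).2.1 = 2 * (seq δ q i).1 * (seq δ q i).2.2.1 * (seq δ q i).2.2.2 *
      (seq δ q i).2.1 := rfl
    rw [e, abs_mul, abs_mul, abs_mul, abs_mul]
    have h2 := Int.one_le_abs (Sol.R_ne hs hδ)
    have h3 := Int.one_le_abs (Sol.S_ne hs hδ)
    have h4 := Int.one_le_abs (Sol.T_ne hs hδ)
    have h5 := Int.one_le_abs (Sol.hD hs)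
    have h6 : |(2 : ℤ)| = 2 := by norm_num
    rw [h6]
    have h7 : 2 ≤ 2 * |(seq δ q i).1| := by linarith
    have h8 : 2 ≤ 2 * |(seq δ q i).1| * |(seq δ q i).2.2.1| := by nlinarith
    have h9 : 2 ≤ 2 * |(seq δ q i).1| * |(seq δ q i).2.2.1| * |(seq δ q i).2.2.2| := by nlinarith
    nlinarith
  refine h1.trans_le ?_
  have h2 := seq_D_dvd (δ := δ) q (Nat.succ_le_of_lt hij)
  exact Int.le_of_dvd (abs_pos.2 (Sol.hD (seq_sol hsq hδ h j))) ((abs_dvd_abs _ _).2 h2)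

/-- the difference of two solutions -/
lemma diff {R₁ D₁ S₁ T₁ R₂ D₂ S₂ T₂ : ℤ} (h : Sol δ R₁ D₁ S₁ T₁) (h' : Sol δ R₂ D₂ S₂ T₂) :
    (R₁ ^ 2 * R₂ ^ 2 + δ ^ 2 * D₁ ^ 2 * D₂ ^ 2) ^ 2 -
      δ * (D₁ * R₁ * S₂ * T₂ - D₂ * R₂ * S₁ * T₁) ^ 2 =
        (R₁ * R₂ * S₁ * S₂ + δ * D₁ * D₂ * T₁ * T₂) ^ 2 ∧
    (R₁ ^ 2 * R₂ ^ 2 + δ ^ 2 * D₁ ^ 2 * D₂ ^ 2) ^ 2 +
      δ * (D₁ * R₁ * S₂ * T₂ - D₂ * R₂ * S₁ * T₁) ^ 2 =
        (R₁ * R₂ * T₁ * T₂ - δ * D₁ * D₂ * S₁ * S₂) ^ 2 := by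
  have a1 := h.h1
  have a2 := h.h2
  have b1 := h'.h1
  have b2 := h'.h2
  have e1 : (D₁ * R₁ * S₂ * T₂ - D₂ * R₂ * S₁ * T₁) ^ 2 =
      D₁ ^ 2 * R₁ ^ 2 * (S₂ ^ 2 * T₂ ^ 2) + D₂ ^ 2 * R₂ ^ 2 * (S₁ ^ 2 * T₁ ^ 2) -
        2 * D₁ * D₂ * R₁ * R₂ * (S₁ * S₂ * T₁ * T₂) := by ring
  have e2 : (R₁ * R₂ * S₁ * S₂ + δ * D₁ * D₂ * T₁ * T₂) ^ 2 =
      R₁ ^ 2 * R₂ ^ 2 * (S₁ ^ 2 * S₂ ^ 2) + δ ^ 2 * D₁ ^ 2 * D₂ ^ 2 * (T₁ ^ 2 * T₂ ^ 2) +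
        2 * δ * D₁ * D₂ * R₁ * R₂ * (S₁ * S₂ * T₁ * T₂) := by ring
  have e3 : (R₁ * R₂ * T₁ * T₂ - δ * D₁ * D₂ * S₁ * S₂) ^ 2 =
      R₁ ^ 2 * R₂ ^ 2 * (T₁ ^ 2 * T₂ ^ 2) + δ ^ 2 * D₁ ^ 2 * D₂ ^ 2 * (S₁ ^ 2 * S₂ ^ 2) -
        2 * δ * D₁ * D₂ * R₁ * R₂ * (S₁ * S₂ * T₁ * T₂) := by ring
  constructor
  · rw [e1, e2, ← a1, ← a2, ← b1, ← b2]
    ring
  · rw [e1, e3, ← a1, ← a2, ← b1, ← b2]
    ring

lemma diff_ne (hδ : 0 < δ) {R₁ D₁ S₁ T₁ R₂ D₂ S₂ T₂ : ℤ} (h : Sol δ R₁ D₁ S₁ T₁)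
    (h' : Sol δ R₂ D₂ S₂ T₂) (hlt : |D₁| < |D₂|) :
    D₁ * R₁ * S₂ * T₂ - D₂ * R₂ * S₁ * T₁ ≠ 0 := by
  intro h0
  have a1 := h.h1
  have a2 := h.h2
  have b1 := h'.h1
  have b2 := h'.h2
  have e1 : D₁ ^ 2 * R₁ ^ 2 * (S₂ ^ 2 * T₂ ^ 2) = D₂ ^ 2 * R₂ ^ 2 * (S₁ ^ 2 * T₁ ^ 2) := by
    have : D₁ * R₁ * S₂ * T₂ = D₂ * R₂ * S₁ * T₁ := by linarith
    calc D₁ ^ 2 * R₁ ^ 2 * (S₂ ^ 2 * T₂ ^ 2) = (D₁ * R₁ * S₂ * T₂) ^ 2 := by ring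
      _ = (D₂ * R₂ * S₁ * T₁) ^ 2 := by rw [this]
      _ = _ := by ring
  rw [← a1, ← a2, ← b1, ← b2] at e1
  have e2 : (D₁ ^ 2 * R₂ ^ 2 - D₂ ^ 2 * R₁ ^ 2) *
      (R₁ ^ 2 * R₂ ^ 2 + δ ^ 2 * D₁ ^ 2 * D₂ ^ 2) = 0 := by linarith
  have hR1 := h.R_ne hδ
  have hR2 := h'.R_ne hδ
  rcases mul_eq_zero.1 e2 with e3 | e3
  · have e4 : D₁ ^ 2 * R₂ ^ 2 = D₂ ^ 2 * R₁ ^ 2 := by linarith
    have e5 : D₂ ^ 2 ∣ D₁ ^ 2 := by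
      have h3 : IsCoprime (D₂ ^ 2) (R₂ ^ 2) := h'.cop.symm.pow
      exact h3.dvd_of_dvd_mul_right ⟨R₁ ^ 2, e4⟩
    have e6 : D₂ ∣ D₁ := (Int.pow_dvd_pow_iff two_ne_zero).1 e5
    have e7 := Int.le_of_dvd (abs_pos.2 h.hD) ((abs_dvd_abs _ _).2 e6)
    omega
  · have : 0 < R₁ ^ 2 * R₂ ^ 2 + δ ^ 2 * D₁ ^ 2 * D₂ ^ 2 := by positivity
    omega

/-- every `M` divides some denominator -/
theorem exists_dvd (hsq : Squarefree δ) (hδ : 0 < δ) {R D S T : ℤ} (h : Sol δ R D S T) (M : ℕ)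
    (hM : 0 < M) : ∃ R' D' S' T' : ℤ, Sol δ R' D' S' T' ∧ (M : ℤ) ∣ D' := by
  haveI : NeZero M := ⟨hM.ne'⟩
  set q : ℤ × ℤ × ℤ × ℤ := (R, D, S, T) with hq
  have hsol : IsSol δ q := h
  obtain ⟨i, j, hij, hF⟩ := Finite.exists_ne_map_eq_of_infinite
    (fun k : ℕ => (((seq δ q k).1 : ZMod M), ((seq δ q k).2.1 : ZMod M),
      ((seq δ q k).2.2.1 : ZMod M), ((seq δ q k).2.2.2 : ZMod M)))
  wlog hlt : i < j generalizing i j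
  · exact this j i hij.symm hF.symm (by omega)
  simp only [Prod.mk.injEq] at hF
  obtain ⟨f1, f2, f3, f4⟩ := hF
  have hi := seq_sol hsq hδ hsol i
  have hj := seq_sol hsq hδ hsol j
  have hi1 := seq_sol hsq hδ hsol (i + 1)
  have hj1 := seq_sol hsq hδ hsol (j + 1)
  obtain ⟨d1, d2⟩ := diff hi hj
  have hne := diff_ne hδ hi hj (seq_D_lt hsq hδ hsol hlt)
  apply reduce d1 d2 hne
  · -- coprimality
    apply isCoprime_of_prime_dvd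
    · rintro ⟨_, h0⟩
      exact hM.ne' (by exact_mod_cast h0)
    · intro p hp hR3 hpM
      have g1 : (M : ℤ) ∣ (seq δ q i).1 - (seq δ q j).1 := by
        rw [← ZMod.intCast_zmod_eq_zero_iff_dvd]
        push_cast
        rw [f1, sub_self]
      have g2 : (M : ℤ) ∣ (seq δ q i).2.1 - (seq δ q j).2.1 := by
        rw [← ZMod.intCast_zmod_eq_zero_iff_dvd]
        push_cast
        rw [f2, sub_self]
      have m1 := hpM.trans g1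
      have m2 := hpM.trans g2
      have r1 : p ∣ (seq δ q (i + 1)).1 := by
        have e : (seq δ q (i + 1)).1 = ((seq δ q i).1 ^ 2 * (seq δ q j).1 ^ 2 +
            δ ^ 2 * (seq δ q i).2.1 ^ 2 * (seq δ q j).2.1 ^ 2) +
            ((seq δ q i).1 - (seq δ q j).1) *
              ((seq δ q i).1 ^ 2 * ((seq δ q i).1 + (seq δ q j).1)) +
            ((seq δ q i).2.1 - (seq δ q j).2.1) *
              (δ ^ 2 * (seq δ q i).2.1 ^ 2 * ((seq δ q i).2.1 + (seq δ q j).2.1)) := by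
          have : (seq δ q (i + 1)).1 = (seq δ q i).1 ^ 4 + δ ^ 2 * (seq δ q i).2.1 ^ 4 := rfl
          rw [this]
          ring
        rw [e]
        exact dvd_add (dvd_add hR3 (m1.mul_right _)) (m2.mul_right _)
      have r2 : p ∣ (seq δ q (j + 1)).1 := by
        have e : (seq δ q (j + 1)).1 = ((seq δ q i).1 ^ 2 * (seq δ q j).1 ^ 2 +
            δ ^ 2 * (seq δ q i).2.1 ^ 2 * (seq δ q j).2.1 ^ 2) -
            ((seq δ q i).1 - (seq δ q j).1) *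
              ((seq δ q j).1 ^ 2 * ((seq δ q i).1 + (seq δ q j).1)) -
            ((seq δ q i).2.1 - (seq δ q j).2.1) *
              (δ ^ 2 * (seq δ q j).2.1 ^ 2 * ((seq δ q i).2.1 + (seq δ q j).2.1)) := by
          have : (seq δ q (j + 1)).1 = (seq δ q j).1 ^ 4 + δ ^ 2 * (seq δ q j).2.1 ^ 4 := rfl
          rw [this]
          ring
        rw [e]
        exact dvd_sub (dvd_sub hR3 (m1.mul_right _)) (m2.mul_right _)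
      have r3 : p ∣ (seq δ q (i + 1 + 1)).2.1 := by
        have e : (seq δ q (i + 1 + 1)).2.1 = 2 * (seq δ q (i + 1)).1 * (seq δ q (i + 1)).2.2.1 *
          (seq δ q (i + 1)).2.2.2 * (seq δ q (i + 1)).2.1 := rfl
        rw [e]
        exact (((r1.mul_left _).mul_right _).mul_right _).mul_right _
      have r4 : p ∣ (seq δ q (j + 1)).2.1 :=
        r3.trans (seq_D_dvd q (by omega))
      exact no_common (Sol.cop hj1) hp r2 r4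
  · -- divisibility
    rw [← ZMod.intCast_zmod_eq_zero_iff_dvd]
    push_cast
    rw [f1, f2, f3, f4]
    ring

end Pool.Agent.TH999.DCN
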