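import Pool.Agent.TH999.DCN.Apparition

set_option autoImplicit false

/-!
# Solutions from right triangles
-/

namespace Pool.Agent.TH999.DCN

lemma int_of_sq {x : ℚ} {z : ℤ} (h : x ^ 2 = z) : ∃ y : ℤ, x = y := by
  have h1 : (x ^ 2).den = 1 := by rw [h]; exact Rat.den_intCast z
  rw [Rat.den_pow] at h1
  have h2 : x.den = 1 := by
    have := Nat.pow_eq_one.1 h1
    omega
  exact ⟨x.num, ((Rat.den_eq_one_iff x).1 h2).symm⟩

/-- solutions from a right triangle with rational sides -/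
theorem exists_good (δ : ℕ) {a b c : ℚ} (ha : 0 < a) (hb : 0 < b) (hc : 0 < c)
    (h : a ^ 2 + b ^ 2 = c ^ 2) (hd : (δ : ℚ) = a * b / 2) (M : ℕ) (hM : 0 < M) :
    ∃ R D S T : ℤ, 0 < R ∧ 0 < D ∧ 0 < S ∧ 0 < T ∧ R ^ 2 - δ * D ^ 2 = S ^ 2 ∧
      R ^ 2 + δ * D ^ 2 = T ^ 2 ∧ IsCoprime R D ∧ IsCoprime R δ ∧ (M : ℤ) ∣ D := by
  have hδ : 0 < δ := by
    have : (0 : ℚ) < δ := by rw [hd]; positivity
    exact_mod_cast this
  obtain ⟨δ₀, s, hδ₀, hs, hds, hsq⟩ := Nat.sq_mul_squarefree_of_pos hδ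
  have hs' : (s : ℚ) ≠ 0 := by exact_mod_cast hs.ne'
  set r : ℚ := c / (2 * s) with hr
  have e0 : (δ₀ : ℚ) * s ^ 2 = a * b / 2 := by
    rw [← hd, ← hds]; push_cast; ring
  have hδq : (δ₀ : ℚ) = a * b / (2 * s ^ 2) := by
    field_simp
    field_simp at e0
    linarith
  have e1 : r ^ 2 - δ₀ = ((a - b) / (2 * s)) ^ 2 := by
    rw [hδq, hr, div_pow, ← h]
    field_simp
    ring
  have e2 : r ^ 2 + δ₀ = ((a + b) / (2 * s)) ^ 2 := by
    rw [hδq, hr, div_pow, ← h]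
    field_simp
    ring
  have hrd : (r.den : ℚ) ≠ 0 := by exact_mod_cast r.den_pos.ne'
  have er : (r.den : ℚ) * r = r.num := Rat.den_mul_eq_num r
  have f1 : ((r.den : ℚ) * ((a - b) / (2 * s))) ^ 2 = ((r.num ^ 2 - δ₀ * r.den ^ 2 : ℤ) : ℚ) := by
    rw [mul_pow, ← e1]
    push_cast
    rw [← er]
    ring
  have f2 : ((r.den : ℚ) * ((a + b) / (2 * s))) ^ 2 = ((r.num ^ 2 + δ₀ * r.den ^ 2 : ℤ) : ℚ) := by
    rw [mul_pow, ← e2]
    push_cast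
    rw [← er]
    ring
  obtain ⟨S, hS⟩ := int_of_sq f1
  obtain ⟨T, hT⟩ := int_of_sq f2
  have hsol : Sol (δ₀ : ℤ) r.num r.den S T := by
    refine ⟨?_, ?_, ?_, ?_⟩
    · have : ((S ^ 2 : ℤ) : ℚ) = ((r.num ^ 2 - δ₀ * r.den ^ 2 : ℤ) : ℚ) := by
        rw [← f1, hS]; push_cast; ring
      exact (by exact_mod_cast this.symm)
    · have : ((T ^ 2 : ℤ) : ℚ) = ((r.num ^ 2 + δ₀ * r.den ^ 2 : ℤ) : ℚ) := by
        rw [← f2, hT]; push_cast; ring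
      exact (by exact_mod_cast this.symm)
    · exact Int.isCoprime_iff_gcd_eq_one.2 (by
        have := r.reduced
        rw [Nat.Coprime] at this
        rw [Int.gcd, Int.natAbs_natCast]
        exact this)
    · exact_mod_cast r.den_pos.ne'
  have hsq' : Squarefree (δ₀ : ℤ) := Int.squarefree_natCast.2 hsq
  have hδ0' : (0 : ℤ) < δ₀ := by exact_mod_cast hδ₀
  obtain ⟨R', D', S', T', hsol', hdv⟩ := exists_dvd hsq' hδ0' hsol (s * M) (Nat.mul_pos hs hM)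
  obtain ⟨k, hk⟩ := hdv
  push_cast at hk
  have hs0 : (s : ℤ) ≠ 0 := by exact_mod_cast hs.ne'
  set D₁ : ℤ := M * k with hD₁
  have hDD : D' = s * D₁ := by rw [hk, hD₁]; ring
  have hδs : (δ : ℤ) = s ^ 2 * δ₀ := by rw [← hds]; push_cast; ring
  have hD1 : D₁ ≠ 0 := by
    rintro h0
    exact hsol'.hD (by rw [hDD, h0, mul_zero])
  refine ⟨|R'|, |D₁|, |S'|, |T'|, abs_pos.2 (hsol'.R_ne hδ0'), abs_pos.2 hD1,
    abs_pos.2 (hsol'.S_ne hδ0'), abs_pos.2 (hsol'.T_ne hδ0'), ?_, ?_, ?_, ?_, ?_⟩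
  · rw [sq_abs, sq_abs, sq_abs, ← hsol'.h1, hDD, hδs]
    ring
  · rw [sq_abs, sq_abs, sq_abs, ← hsol'.h2, hDD, hδs]
    ring
  · rw [IsCoprime.abs_abs_iff]
    exact hsol'.cop.of_isCoprime_of_dvd_right ⟨s, by rw [hDD]; ring⟩
  · rw [IsCoprime.abs_left_iff, hδs]
    refine IsCoprime.mul_right (IsCoprime.pow_right ?_) (hsol'.cop_δ hsq')
    exact hsol'.cop.of_isCoprime_of_dvd_right ⟨D₁, hDD⟩
  · rw [dvd_abs]
    exact dvd_mul_right _ _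

end Pool.Agent.TH999.DCN
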