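import Pool.Agent.TH4.CT.Transfer
import Pool.Agent.TH999.DCN.Start

set_option autoImplicit false

/-!
# Two polynomials with constant difference `δ`, all of whose positive values are congruent numbers
-/

namespace Pool.Agent.TH999.DCN

open Finset Filter Pool.Agent.TH4.CT

/-- the factors -/
def g0 (u : ℤ) : ℤ := u
/-- the factors -/
def g1 (e R T u : ℤ) : ℤ := e * R ^ 2 * u + T
/-- the factors -/
def g2 (e R T u : ℤ) : ℤ := 2 * e ^ 2 * R ^ 4 * u ^ 2 + 2 * T * e * R ^ 2 * u + T ^ 2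
/-- the factors -/
def g3 (e R T δ u : ℤ) : ℤ := e * R ^ 4 * u ^ 2 + T * R ^ 2 * u + δ
/-- the factors -/
def g4 (e R T u : ℤ) : ℤ := 2 * e ^ 2 * R ^ 2 * u ^ 2 + 2 * e * T * u + 1

/-- the smaller number -/
def n1 (e R T u : ℤ) : ℤ := g0 u * (g1 e R T u * g2 e R T u)
/-- the larger number -/
def n2 (e R T δ u : ℤ) : ℤ := g3 e R T δ u * g4 e R T u

variable {e R T S δ : ℤ}

lemma n2_eq (hT : R ^ 2 + 2 * e * δ = T ^ 2) (u : ℤ) : n2 e R T δ u = n1 e R T u + δ := by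
  unfold n1 n2 g0 g1 g2 g3 g4
  linear_combination (T * u + e * R ^ 2 * u ^ 2) * hT

lemma n1_expand (u : ℤ) : n1 e R T u =
    T ^ 3 * u + e * R ^ 2 * (2 * e ^ 2 * R ^ 4 * u ^ 4 + 4 * T * e * R ^ 2 * u ^ 3 +
      3 * T ^ 2 * u ^ 2) := by
  unfold n1 g0 g1 g2
  ring

lemma n1_sq (u : ℤ) : 8 * e * R ^ 2 * n1 e R T u = (T + 2 * e * R ^ 2 * u) ^ 4 - T ^ 4 := by
  unfold n1 g0 g1 g2
  ring

lemma n2_sq (hT : R ^ 2 + 2 * e * δ = T ^ 2) (hS : R ^ 2 - 2 * e * δ = S ^ 2) (u : ℤ) :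
    8 * e * R ^ 2 * n2 e R T δ u = (T + 2 * e * R ^ 2 * u) ^ 4 - S ^ 4 := by
  rw [n2_eq hT, mul_add, n1_sq]
  have : T ^ 4 - S ^ 4 = 8 * e * R ^ 2 * δ := by
    have h1 : T ^ 4 = (R ^ 2 + 2 * e * δ) ^ 2 := by rw [hT]; ring
    have h2 : S ^ 4 = (R ^ 2 - 2 * e * δ) ^ 2 := by rw [hS]; ring
    rw [h1, h2]; ring
  linarith

/-- the values are congruent numbers -/
lemma cong_of {n σ τ w : ℚ} (hn : 0 < n) (hσ : 0 < σ) (hτ : 0 < τ) (hw : 0 < w)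
    (h : σ ^ 2 * n = τ ^ 4 - w ^ 4) :
    ∃ a b c : ℚ, 0 < a ∧ 0 < b ∧ 0 < c ∧ a ^ 2 + b ^ 2 = c ^ 2 ∧ n = a * b / 2 := by
  refine ⟨n * σ / (τ * w), 2 * (τ * w) / σ, (τ ^ 4 + w ^ 4) / (τ * w * σ), by positivity,
    by positivity, by positivity, ?_, ?_⟩
  · field_simp
    have e1 : (σ ^ 2 * n) ^ 2 = (τ ^ 4 - w ^ 4) ^ 2 := by rw [h]
    nlinarith [e1]
  · field_simp

/-- compatibility with congruences -/
def Per (g : ℤ → ℤ) : Prop := ∀ n t t' : ℤ, n ∣ t - t' → n ∣ g t - g t'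

lemma per_const (a : ℤ) : Per (fun _ => a) := fun n t t' _ => by simp

lemma per_id : Per (fun t => t) := fun _ _ _ h => h

lemma Per.add {f g : ℤ → ℤ} (hf : Per f) (hg : Per g) : Per (fun t => f t + g t) := by
  intro n t t' h
  have e : f t + g t - (f t' + g t') = (f t - f t') + (g t - g t') := by ring
  rw [e]
  exact dvd_add (hf n t t' h) (hg n t t' h)

lemma Per.mul {f g : ℤ → ℤ} (hf : Per f) (hg : Per g) : Per (fun t => f t * g t) := by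
  intro n t t' h
  have e : f t * g t - f t' * g t' = (f t - f t') * g t + f t' * (g t - g t') := by ring
  rw [e]
  exact dvd_add ((hf n t t' h).mul_right _) ((hg n t t' h).mul_left _)

lemma Per.pow {f : ℤ → ℤ} (hf : Per f) (k : ℕ) : Per (fun t => f t ^ k) := by
  intro n t t' h
  exact (hf n t t' h).trans (sub_dvd_pow_sub_pow _ _ _)

lemma Per.comp {f g : ℤ → ℤ} (hf : Per f) (hg : Per g) : Per (fun t => f (g t)) :=
  fun n t t' h => hf n _ _ (hg n t t' h)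

lemma per_g0 : Per g0 := per_id

lemma per_g1 (e R T : ℤ) : Per (g1 e R T) := ((per_const (e * R ^ 2)).mul per_id).add (per_const T)

lemma per_g2 (e R T : ℤ) : Per (g2 e R T) :=
  (((per_const (2 * e ^ 2 * R ^ 4)).mul (per_id.pow 2)).add
    ((per_const (2 * T * e * R ^ 2)).mul per_id)).add (per_const (T ^ 2))

lemma per_g3 (e R T δ : ℤ) : Per (g3 e R T δ) :=
  (((per_const (e * R ^ 4)).mul (per_id.pow 2)).add
    ((per_const (T * R ^ 2)).mul per_id)).add (per_const δ)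

lemma per_g4 (e R T : ℤ) : Per (g4 e R T) :=
  (((per_const (2 * e ^ 2 * R ^ 2)).mul (per_id.pow 2)).add
    ((per_const (2 * e * T)).mul per_id)).add (per_const 1)

lemma per_n1 (e R T : ℤ) : Per (n1 e R T) := per_g0.mul ((per_g1 e R T).mul (per_g2 e R T))

lemma per_n2 (e R T δ : ℤ) : Per (n2 e R T δ) := (per_g3 e R T δ).mul (per_g4 e R T)

lemma per_lin (a b : ℤ) : Per (fun t => b + a * t) := (per_const b).add ((per_const a).mul per_id)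

/-- zeros modulo `p²` along a progression -/
lemma twoRoots_comp {p : ℕ} (hp : p.Prime) {g : ℤ → ℤ} (h : TwoRoots p g) (a b : ℤ)
    (ha : ¬ (p : ℤ) ∣ a) : TwoRoots p (fun t => g (b + a * t)) := by
  obtain ⟨r₁, r₂, hr⟩ := h
  obtain ⟨x, y, hxy⟩ : IsCoprime ((p : ℤ) ^ 2) a := (isCoprime_of hp ha).pow_left
  have key : ∀ r t : ℤ, (p : ℤ) ^ 2 ∣ b + a * t - r → (p : ℤ) ^ 2 ∣ t - y * (r - b) := by
    intro r t ht
    have e : t - y * (r - b) = y * (b + a * t - r) + (p : ℤ) ^ 2 * (x * t) := by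
      linear_combination (-t) * hxy
    rw [e]
    exact dvd_add (ht.mul_left _) (dvd_mul_right _ _)
  refine ⟨y * (r₁ - b), y * (r₂ - b), fun t ht => ?_⟩
  rcases hr _ ht with h1 | h1
  · exact Or.inl (key _ _ h1)
  · exact Or.inr (key _ _ h1)

/-- solving a linear congruence by a natural number -/
lemma solve_lin {p : ℕ} (hp : p.Prime) (a b : ℤ) (ha : ¬ (p : ℤ) ∣ a) :
    ∃ t : ℕ, (p : ℤ) ^ 2 ∣ a * t + b := by
  obtain ⟨x, y, hxy⟩ : IsCoprime ((p : ℤ) ^ 2) a := (isCoprime_of hp ha).pow_left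
  have hp0 : (0 : ℤ) < (p : ℤ) ^ 2 := by have := hp.pos; positivity
  refine ⟨((-y * b) % (p : ℤ) ^ 2).toNat, ?_⟩
  rw [Int.toNat_of_nonneg (Int.emod_nonneg _ hp0.ne')]
  have h1 : (-y * b) % (p : ℤ) ^ 2 = -y * b - (p : ℤ) ^ 2 * ((-y * b) / (p : ℤ) ^ 2) := by
    have := Int.emod_add_mul_ediv (-y * b) ((p : ℤ) ^ 2)
    linarith
  rw [h1]
  have e : a * (-y * b - (p : ℤ) ^ 2 * ((-y * b) / (p : ℤ) ^ 2)) + b =
      (p : ℤ) ^ 2 * (x * b - a * ((-y * b) / (p : ℤ) ^ 2)) := by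
    linear_combination (-b) * hxy
  rw [e]
  exact dvd_mul_right _ _

/-- a good value of `τ` modulo `p²` -/
lemma star {p : ℕ} (hp : p.Prime) (hp2 : p ≠ 2) (h : ¬ ((p : ℤ) ∣ S ∧ (p : ℤ) ∣ T)) :
    ∃ τ : ℤ, ¬ (p : ℤ) ^ 2 ∣ τ ^ 4 - T ^ 4 ∧ ¬ (p : ℤ) ^ 2 ∣ τ ^ 4 - S ^ 4 := by
  have hpp : Prime (p : ℤ) := Nat.prime_iff_prime_int.1 hp
  have h1p : ¬ (p : ℤ) ∣ 1 + p := by
    intro h1
    exact hpp.not_isUnit (isUnit_of_dvd_one ((dvd_add_left (dvd_refl _)).1 h1))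
  have h4 : ¬ (p : ℤ) ∣ 4 := by
    intro h1
    have h2 : (p : ℤ) ∣ 2 ^ 2 := by norm_num; exact h1
    have h3 : p ∣ 2 := by exact_mod_cast hpp.dvd_of_dvd_pow h2
    exact hp2 ((Nat.prime_dvd_prime_iff_eq hp Nat.prime_two).1 h3)
  have key : ∀ A : ℤ, ¬ (p : ℤ) ∣ A → ¬ (p : ℤ) ^ 2 ∣ (A * (1 + p)) ^ 4 - A ^ 4 := by
    intro A hA h1
    have e1 : (p : ℤ) * p ∣ p * (4 * A ^ 4) := by
      have e2 : (p : ℤ) * (4 * A ^ 4) = ((A * (1 + p)) ^ 4 - A ^ 4) -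
        p ^ 2 * (A ^ 4 * (6 + 4 * p + p ^ 2)) := by ring
      rw [e2, ← sq]
      exact dvd_sub h1 (dvd_mul_right _ _)
    have e3 := (mul_dvd_mul_iff_left hpp.ne_zero).1 e1
    rcases hpp.dvd_or_dvd e3 with h5 | h5
    · exact h4 h5
    · exact hA (hpp.dvd_of_dvd_pow h5)
  have key2 : ∀ A B : ℤ, ¬ (p : ℤ) ∣ A → (p : ℤ) ∣ B → ¬ (p : ℤ) ^ 2 ∣ (A * (1 + p)) ^ 4 - B ^ 4 := by
    intro A B hA hB h1
    have h2 : (p : ℤ) ∣ (A * (1 + p)) ^ 4 - B ^ 4 := (dvd_pow_self _ two_ne_zero).trans h1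
    have h3 : (p : ℤ) ∣ (A * (1 + p)) ^ 4 := (dvd_sub_left (hB.pow (by norm_num))).1 h2
    rcases hpp.dvd_or_dvd (hpp.dvd_of_dvd_pow h3) with h5 | h5
    · exact hA h5
    · exact h1p h5
  by_cases hT : (p : ℤ) ∣ T
  · have hS : ¬ (p : ℤ) ∣ S := fun hS => h ⟨hS, hT⟩
    exact ⟨S * (1 + p), key2 S T hS hT, key S hS⟩
  · by_cases hS : (p : ℤ) ∣ S
    · exact ⟨T * (1 + p), key T hT, key2 T S hT hS⟩
    · refine ⟨0, ?_, ?_⟩
      · intro h1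
        have h2 : (p : ℤ) ∣ 0 ^ 4 - T ^ 4 := (dvd_pow_self _ two_ne_zero).trans h1
        have e : (0 : ℤ) ^ 4 - T ^ 4 = -(T ^ 4) := by ring
        rw [e, dvd_neg] at h2
        exact hT (hpp.dvd_of_dvd_pow h2)
      · intro h1
        have h2 : (p : ℤ) ∣ 0 ^ 4 - S ^ 4 := (dvd_pow_self _ two_ne_zero).trans h1
        have e : (0 : ℤ) ^ 4 - S ^ 4 = -(S ^ 4) := by ring
        rw [e, dvd_neg] at h2
        exact hS (hpp.dvd_of_dvd_pow h2)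

end Pool.Agent.TH999.DCN
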