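import Pool.Agent.TH999.DCN.Main

set_option autoImplicit false

/-!
# Differences of squarefree congruent numbers
-/

namespace Pool.Agent.TH999.DCN

open Finset Filter Pool.Agent.TH4.CT
open scoped Classical

variable {e R T S δ : ℤ} {M n₀ : ℕ}

lemma count (h : Data e R T S δ M n₀) {u₀ : ℕ} (hu0 : 0 < u₀)
    (hu : ∀ t : ℤ, (M : ℤ) ^ 2 ∣ n1 e R T (u₀ + M ^ 2 * t) - n₀) :
    ∃ c : ℝ, 0 < c ∧ ∀ᶠ Y : ℕ in atTop, c * Y ≤ (((Icc 1 Y).filter (fun t : ℕ =>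
      Squarefree (n1 e R T (u₀ + M ^ 2 * t)) ∧ Squarefree (n2 e R T δ (u₀ + M ^ 2 * t)))).card :
        ℝ) := by
  have hM := h.hM
  have he := h.e0
  have hR := h.R0
  have hT := h.T0
  have hS := h.S0
  have hδ := h.δ0
  have hN : (0 : ℤ) < 2 * e * R * T * S * M ^ 2 := by positivity
  have hK : 0 < KK e R T δ := by unfold KK; positivity
  have hK1 : 1 ≤ KK e R T δ := hK
  have hC : 0 < KK e R T δ * (u₀ + M ^ 2) := by positivity
  obtain ⟨c, hc, hcount⟩ := sieve (univ : Finset (Fin 5))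
    (fun i t => gg e R T δ i (u₀ + (M : ℤ) ^ 2 * t)) (univ : Finset Bool)
    (fun j t => nn e R T δ j (u₀ + (M : ℤ) ^ 2 * t)) (2 * e * R * T * S * M ^ 2).toNat
    (KK e R T δ * (u₀ + M ^ 2)).toNat 0
    (by
      intro p hp hlt i _
      have h1 := not_dvd_of_large hN hlt
      exact twoRoots_comp hp (roots h hp (fun hh => h1 (hh.mul_right _)) i) _ _
        (fun hh => h1 (hh.mul_left _)))
    (by
      intro i _ t ht
      have ht1 : 1 ≤ t := by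
        have : (0 : ℤ) < t := by exact_mod_cast ht
        omega
      have hMM : (0 : ℤ) < (M : ℤ) ^ 2 := by positivity
      have hu1 : (1 : ℤ) ≤ u₀ := by exact_mod_cast hu0
      have hv : (1 : ℤ) ≤ u₀ + (M : ℤ) ^ 2 * t := by nlinarith
      have hv2 : (u₀ : ℤ) + (M : ℤ) ^ 2 * t ≤ (u₀ + M ^ 2) * t := by nlinarith
      obtain ⟨a1, a2⟩ := gg_bd h i hv
      refine ⟨a1.ne', ?_⟩
      rw [abs_of_pos a1, Int.toNat_of_nonneg hC.le]
      refine a2.trans ?_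
      have b1 : ((u₀ : ℤ) + (M : ℤ) ^ 2 * t) ^ 2 ≤ ((u₀ + M ^ 2) * t) ^ 2 := by
        gcongr
      have b2 : KK e R T δ ≤ KK e R T δ ^ 2 := by nlinarith
      calc KK e R T δ * ((u₀ : ℤ) + (M : ℤ) ^ 2 * t) ^ 2
          ≤ KK e R T δ ^ 2 * ((u₀ + M ^ 2) * t) ^ 2 := by gcongr
        _ = (KK e R T δ * (u₀ + M ^ 2) * t) ^ 2 := by ring)
    (by
      intro p hp hlt j _ t hd
      have h1 := not_dvd_of_large hN hlt
      obtain ⟨i, hi⟩ := fac h hp (fun hh => h1 (hh.mul_right _)) j _ hd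
      exact ⟨i, mem_univ _, hi⟩)
    (by
      intro j _
      cases j
      · exact (per_n2 e R T δ).comp (per_lin _ _)
      · exact (per_n1 e R T).comp (per_lin _ _))
    (by
      intro p hp
      obtain ⟨t, h1, h2⟩ := loc h hu hp
      refine ⟨t, fun j _ => ?_⟩
      cases j
      · exact h2
      · exact h1)
  refine ⟨c, hc, ?_⟩
  filter_upwards [hcount] with Y hY
  refine hY.trans ?_
  rw [Nat.cast_le]
  have h0 : ((Icc 1 Y).filter (fun t : ℕ => 0 < t ∧ ∀ j ∈ (univ : Finset Bool), Squarefree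
      (nn e R T δ j (u₀ + (M : ℤ) ^ 2 * t)))).card ≤ ((Icc 1 Y).filter (fun t : ℕ =>
      Squarefree (n1 e R T (u₀ + M ^ 2 * t)) ∧ Squarefree (n2 e R T δ (u₀ + M ^ 2 * t)))).card := by
    apply card_le_card
    intro t ht
    obtain ⟨h1, _, h2⟩ := mem_filter.1 ht
    exact mem_filter.2 ⟨h1, h2 true (mem_univ _), h2 false (mem_univ _)⟩
  refine le_trans ?_ h0
  convert toNat_count Y 0 (fun t => ∀ j ∈ (univ : Finset Bool), Squarefree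
    (nn e R T δ j (u₀ + (M : ℤ) ^ 2 * t)))
  rfl

/-- transfer to `X` along an injective function of polynomial growth -/
lemma to_X' (F : ℕ → ℕ) (A k : ℕ) (hA : 0 < A) (hk : 0 < k)
    (hF : ∀ t, 0 < t → 0 < F t ∧ F t ≤ A * t ^ k)
    (hinj : ∀ t t', 0 < t → 0 < t' → F t = F t' → t = t') (G N : ℕ → Prop)
    (hGN : ∀ t, 0 < t → G t → N (F t)) {c : ℝ} (hc : 0 < c)
    (h : ∀ᶠ Y : ℕ in atTop, c * Y ≤ (((Icc 1 Y).filter G).card : ℝ)) :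
    ∃ c' : ℝ, 0 < c' ∧ ∀ᶠ X : ℕ in atTop,
      c' * (X : ℝ) ^ (1 / (k : ℝ)) ≤ (((Icc 1 X).filter N).card : ℝ) := by
  have her : (0 : ℝ) < k := by exact_mod_cast hk
  have hAr : (0 : ℝ) < A := by exact_mod_cast hA
  set B : ℝ := ((A : ℝ) ^ (1 / (k : ℝ)))⁻¹ with hB
  have hB0 : 0 < B := by positivity
  set τ : ℕ → ℕ := fun X => ⌊B * (X : ℝ) ^ (1 / (k : ℝ))⌋₊ with hτ
  have ht1 : Tendsto (fun X : ℕ => B * (X : ℝ) ^ (1 / (k : ℝ))) atTop atTop :=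
    ((tendsto_rpow_atTop (by positivity)).comp tendsto_natCast_atTop_atTop).const_mul_atTop hB0
  have ht2 : Tendsto τ atTop atTop := tendsto_nat_floor_atTop.comp ht1
  refine ⟨c * B / 2, by positivity, ?_⟩
  filter_upwards [ht2.eventually h, ht1.eventually_ge_atTop 2] with X h1 h2
  have h3 : B * (X : ℝ) ^ (1 / (k : ℝ)) < τ X + 1 := Nat.lt_floor_add_one _
  have h4 : c * B / 2 * (X : ℝ) ^ (1 / (k : ℝ)) ≤ c * τ X := by
    have : c * B / 2 * (X : ℝ) ^ (1 / (k : ℝ)) = c * (B * (X : ℝ) ^ (1 / (k : ℝ)) / 2) := by ring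
    rw [this]
    apply mul_le_mul_of_nonneg_left _ hc.le
    linarith
  refine h4.trans (h1.trans ?_)
  rw [Nat.cast_le]
  apply card_le_card_of_injOn F
  · intro t ht
    obtain ⟨h5, h6⟩ := mem_filter.1 (mem_coe.1 ht)
    obtain ⟨h7, h8⟩ := mem_Icc.1 h5
    apply mem_coe.2
    refine mem_filter.2 ⟨mem_Icc.2 ⟨(hF t h7).1, (hF t h7).2.trans ?_⟩, hGN t h7 h6⟩
    have h9 : (t : ℝ) ≤ B * (X : ℝ) ^ (1 / (k : ℝ)) :=
      le_trans (by exact_mod_cast h8) (Nat.floor_le (by positivity))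
    have h10 : ((A : ℝ) ^ (1 / (k : ℝ)) * t) ^ k ≤ ((X : ℝ) ^ (1 / (k : ℝ))) ^ k := by
      apply pow_le_pow_left₀ (by positivity)
      rw [hB, inv_mul_eq_div, le_div_iff₀ (by positivity)] at h9
      linarith
    rw [mul_pow, ← Real.rpow_natCast, ← Real.rpow_mul hAr.le, one_div_mul_cancel her.ne',
      Real.rpow_one, ← Real.rpow_natCast ((X : ℝ) ^ (1 / (k : ℝ))), ← Real.rpow_mul
      (Nat.cast_nonneg _), one_div_mul_cancel her.ne', Real.rpow_one] at h10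
    exact_mod_cast h10
  · intro t ht t' ht' hh
    exact hinj t t' (mem_Icc.1 (mem_filter.1 (mem_coe.1 ht)).1).1
      (mem_Icc.1 (mem_filter.1 (mem_coe.1 ht')).1).1 hh

lemma n1_pos (he : 0 < e) (hR : 0 < R) (hT : 0 < T) {u : ℤ} (hu : 0 < u) : 0 < n1 e R T u := by
  unfold n1 g0 g1 g2
  positivity

lemma n1_lt (he : 0 < e) (hR : 0 < R) (hT : 0 < T) {u v : ℤ} (hu : 0 < u) (huv : u < v) :
    n1 e R T u < n1 e R T v := by
  rw [n1_expand, n1_expand]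
  gcongr

lemma n1_le (he : 0 < e) (hR : 0 < R) (hT : 0 < T) {u : ℤ} (hu : 1 ≤ u) :
    n1 e R T u ≤ (T ^ 3 + e * R ^ 2 * (2 * e ^ 2 * R ^ 4 + 4 * T * e * R ^ 2 + 3 * T ^ 2)) * u ^ 4 := by
  rw [n1_expand]
  have hu0 : 0 < u := by omega
  have h1 : u ≤ u ^ 4 := by
    calc u = u ^ 1 := (pow_one u).symm
      _ ≤ u ^ 4 := pow_le_pow_right₀ hu (by norm_num)
  have h2 : u ^ 2 ≤ u ^ 4 := pow_le_pow_right₀ hu (by norm_num)
  have h3 : u ^ 3 ≤ u ^ 4 := pow_le_pow_right₀ hu (by norm_num)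
  have e1 : (T ^ 3 + e * R ^ 2 * (2 * e ^ 2 * R ^ 4 + 4 * T * e * R ^ 2 + 3 * T ^ 2)) * u ^ 4 =
      T ^ 3 * u ^ 4 + e * R ^ 2 * (2 * e ^ 2 * R ^ 4 * u ^ 4 + 4 * T * e * R ^ 2 * u ^ 4 +
        3 * T ^ 2 * u ^ 4) := by ring
  rw [e1]
  gcongr

/-- `n` is the area of a right triangle with rational sides -/
def IsCong (n : ℕ) : Prop :=
  ∃ a b c : ℚ, 0 < a ∧ 0 < b ∧ 0 < c ∧ a ^ 2 + b ^ 2 = c ^ 2 ∧ (n : ℚ) = a * b / 2

/-- the values are congruent numbers -/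
lemma cong1 {δ : ℕ} (h : Data e R T S δ M n₀) {D : ℤ} (hD : 0 < D) (hDe : D ^ 2 = 2 * e) {v : ℤ}
    (hv : 0 < v) : IsCong (n1 e R T v).toNat ∧ IsCong ((n1 e R T v).toNat + δ) := by
  have he0 := h.e0
  have hR := h.R0
  have hT := h.T0
  have hS := h.S0
  have hδ := h.δ0
  have h1 := n1_pos he0 hR hT hv
  have hn : (((n1 e R T v).toNat : ℕ) : ℤ) = n1 e R T v := Int.toNat_of_nonneg h1.le
  have hn2 : (((n1 e R T v).toNat + δ : ℕ) : ℤ) = n2 e R T δ v := by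
    push_cast
    rw [hn, n2_eq h.hT]
  have hσ : (2 * D * R) ^ 2 = 8 * e * R ^ 2 := by
    calc (2 * D * R) ^ 2 = 4 * D ^ 2 * R ^ 2 := by ring
      _ = 8 * e * R ^ 2 := by rw [hDe]; ring
  have hσ0 : (0 : ℚ) < ((2 * D * R : ℤ) : ℚ) := by
    have : (0 : ℤ) < 2 * D * R := by positivity
    exact_mod_cast this
  have hτ0 : (0 : ℚ) < ((T + 2 * e * R ^ 2 * v : ℤ) : ℚ) := by
    have : (0 : ℤ) < T + 2 * e * R ^ 2 * v := by positivity
    exact_mod_cast this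
  constructor
  · have hnq : (((n1 e R T v).toNat : ℕ) : ℚ) = ((n1 e R T v : ℤ) : ℚ) := by
      have := congrArg (Int.cast : ℤ → ℚ) hn
      rwa [Int.cast_natCast] at this
    rw [IsCong, hnq]
    apply cong_of (σ := ((2 * D * R : ℤ) : ℚ)) (τ := ((T + 2 * e * R ^ 2 * v : ℤ) : ℚ))
      (w := (T : ℚ)) (by exact_mod_cast h1) hσ0 hτ0 (by exact_mod_cast hT)
    have h4 : (2 * D * R) ^ 2 * n1 e R T v = (T + 2 * e * R ^ 2 * v) ^ 4 - T ^ 4 := by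
      rw [hσ, n1_sq]
    exact_mod_cast h4
  · have hnq : (((n1 e R T v).toNat + δ : ℕ) : ℚ) = ((n2 e R T δ v : ℤ) : ℚ) := by
      have := congrArg (Int.cast : ℤ → ℚ) hn2
      rwa [Int.cast_natCast] at this
    have h2 : 0 < n2 e R T δ v := by
      rw [n2_eq h.hT]
      omega
    rw [IsCong, hnq]
    apply cong_of (σ := ((2 * D * R : ℤ) : ℚ)) (τ := ((T + 2 * e * R ^ 2 * v : ℤ) : ℚ))
      (w := (S : ℚ)) (by exact_mod_cast h2) hσ0 hτ0 (by exact_mod_cast hS)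
    have h4 : (2 * D * R) ^ 2 * n2 e R T δ v = (T + 2 * e * R ^ 2 * v) ^ 4 - S ^ 4 := by
      rw [hσ, n2_sq h.hT h.hS]
    exact_mod_cast h4

/-- the data exist -/
lemma exists_data (δ : ℕ) (hδ : IsCong δ) (M : ℕ) (hM : 0 < M) (n₀ : ℕ) (h₀ : Squarefree n₀)
    (h₁ : Squarefree (n₀ + δ)) :
    ∃ e R T S D : ℤ, Data e R T S δ (2 * M) n₀ ∧ 0 < D ∧ D ^ 2 = 2 * e := by
  obtain ⟨a, b, c, ha, hb, hc, h, hd⟩ := hδ
  have hδ0 : 0 < δ := by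
    have : (0 : ℚ) < δ := by rw [hd]; positivity
    exact_mod_cast this
  have hMM : 0 < 2 * (2 * M) ^ 2 := by positivity
  obtain ⟨R, D, S, T, hR, hD, hS, hT, e1, e2, c1, c2, k, hk⟩ :=
    exists_good δ ha hb hc h hd (2 * (2 * M) ^ 2) hMM
  push_cast at hk
  have hDe : D ^ 2 = 2 * (2 * (2 * (M : ℤ)) ^ 4 * k ^ 2) := by rw [hk]; ring
  have he0 : 0 < 2 * (2 * (M : ℤ)) ^ 4 * k ^ 2 := by
    have : 0 < D ^ 2 := by positivity
    omega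
  refine ⟨2 * (2 * (M : ℤ)) ^ 4 * k ^ 2, R, T, S, D, ?_, hD, hDe⟩
  refine ⟨he0, hR, hT, hS, by exact_mod_cast hδ0, ?_, ?_, ?_, ?_, ⟨D, hDe⟩, by omega, ⟨M, rfl⟩,
    ⟨2 * (2 * (M : ℤ)) ^ 2 * k ^ 2, by push_cast; ring⟩, Int.squarefree_natCast.2 h₀, ?_⟩
  · rw [← e2, ← hDe]; ring
  · rw [← e1, ← hDe]; ring
  · intro p hp h1 h2
    have hpp : Prime (p : ℤ) := Nat.prime_iff_prime_int.1 hp
    have h3 : (p : ℤ) ∣ D := hpp.dvd_of_dvd_pow (n := 2) (by rw [hDe]; exact h1.mul_left _)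
    have h4 : (p : ℤ) ∣ R ^ 2 := by
      have : R ^ 2 = T ^ 2 - δ * D ^ 2 := by rw [← e2]; ring
      rw [this]
      exact dvd_sub (h2.pow two_ne_zero) ((h3.pow two_ne_zero).mul_left _)
    exact no_common c1 hpp (hpp.dvd_of_dvd_pow h4) h3
  · intro p hp h1 h2
    have hpp : Prime (p : ℤ) := Nat.prime_iff_prime_int.1 hp
    have h4 : (p : ℤ) ∣ (δ : ℤ) * D ^ 2 := by
      have : (δ : ℤ) * D ^ 2 = T ^ 2 - R ^ 2 := by rw [← e2]; ring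
      rw [this]
      exact dvd_sub (h2.pow two_ne_zero) (h1.pow two_ne_zero)
    rcases hpp.dvd_or_dvd h4 with h5 | h5
    · exact no_common c2 hpp h1 h5
    · exact no_common c1 hpp h1 (hpp.dvd_of_dvd_pow h5)
  · exact_mod_cast Int.squarefree_natCast.2 h₁

/-- growth -/
lemma growth (he : 0 < e) (hR : 0 < R) (hT : 0 < T) (hM : 0 < M) {u₀ : ℕ} (hu0 : 0 < u₀) :
    ∃ A : ℕ, 0 < A ∧ ∀ t : ℕ, 0 < t →
      0 < (n1 e R T (u₀ + (M : ℤ) ^ 2 * t)).toNat ∧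
      (n1 e R T (u₀ + (M : ℤ) ^ 2 * t)).toNat ≤ A * t ^ 4 := by
  set K : ℤ := T ^ 3 + e * R ^ 2 * (2 * e ^ 2 * R ^ 4 + 4 * T * e * R ^ 2 + 3 * T ^ 2) with hKdef
  have hK : 0 < K := by rw [hKdef]; positivity
  have hu1 : (1 : ℤ) ≤ u₀ := by exact_mod_cast hu0
  have hMM : (0 : ℤ) < (M : ℤ) ^ 2 := by positivity
  have hA0 : 0 < K * (u₀ + (M : ℤ) ^ 2) ^ 4 := by positivity
  refine ⟨(K * (u₀ + (M : ℤ) ^ 2) ^ 4).toNat, by omega, fun t ht => ?_⟩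
  have ht1 : (1 : ℤ) ≤ t := by exact_mod_cast ht
  have hv : (1 : ℤ) ≤ u₀ + (M : ℤ) ^ 2 * t := by nlinarith
  have h1 := n1_pos he hR hT (u := u₀ + (M : ℤ) ^ 2 * t) (by omega)
  refine ⟨by omega, ?_⟩
  have h2 := n1_le he hR hT hv
  have h3 : (u₀ : ℤ) + (M : ℤ) ^ 2 * t ≤ (u₀ + (M : ℤ) ^ 2) * t := by nlinarith
  have h4 : ((n1 e R T (u₀ + (M : ℤ) ^ 2 * t)).toNat : ℤ) ≤
      (((K * (u₀ + (M : ℤ) ^ 2) ^ 4).toNat * t ^ 4 : ℕ) : ℤ) := by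
    rw [Nat.cast_mul, Nat.cast_pow, Int.toNat_of_nonneg h1.le, Int.toNat_of_nonneg hA0.le]
    refine h2.trans ?_
    have h5 : ((u₀ : ℤ) + (M : ℤ) ^ 2 * t) ^ 4 ≤ ((u₀ + (M : ℤ) ^ 2) * t) ^ 4 :=
      pow_le_pow_left₀ (by omega) h3 4
    calc K * ((u₀ : ℤ) + (M : ℤ) ^ 2 * t) ^ 4 ≤ K * ((u₀ + (M : ℤ) ^ 2) * t) ^ 4 :=
          mul_le_mul_of_nonneg_left h5 hK.le
      _ = _ := by ring
  exact_mod_cast h4

lemma inj (he : 0 < e) (hR : 0 < R) (hT : 0 < T) (hM : 0 < M) {u₀ : ℕ} (hu0 : 0 < u₀) (t t' : ℕ)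
    (h : (n1 e R T (u₀ + (M : ℤ) ^ 2 * t)).toNat = (n1 e R T (u₀ + (M : ℤ) ^ 2 * t')).toNat) :
    t = t' := by
  have hu1 : (1 : ℤ) ≤ u₀ := by exact_mod_cast hu0
  have hMM : (0 : ℤ) < (M : ℤ) ^ 2 := by positivity
  have key : ∀ a b : ℕ, a < b → (n1 e R T (u₀ + (M : ℤ) ^ 2 * a)).toNat ≠
      (n1 e R T (u₀ + (M : ℤ) ^ 2 * b)).toNat := by
    intro a b hab heq
    have hab' : (a : ℤ) < b := by exact_mod_cast hab
    have ha0 : (0 : ℤ) ≤ a := Int.natCast_nonneg a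
    have hva : (0 : ℤ) < u₀ + (M : ℤ) ^ 2 * a := by nlinarith
    have h1 := n1_pos he hR hT hva
    have h2 := n1_lt he hR hT hva (v := u₀ + (M : ℤ) ^ 2 * b) (by nlinarith)
    omega
  rcases lt_trichotomy t t' with hl | hl | hl
  · exact absurd h (key t t' hl)
  · exact hl
  · exact absurd h.symm (key t' t hl)

theorem main (δ : ℕ) (hδ : IsCong δ) (M : ℕ) (hM : 0 < M) (n₀ : ℕ) (h₀ : Squarefree n₀)
    (h₁ : Squarefree (n₀ + δ)) :
    ∃ c : ℝ, 0 < c ∧ ∀ᶠ X : ℕ in atTop, c * (X : ℝ) ^ (1 / 4 : ℝ) ≤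
      (((Icc 1 X).filter (fun n : ℕ => n ≡ n₀ [MOD M] ∧ Squarefree n ∧ IsCong n ∧
        Squarefree (n + δ) ∧ IsCong (n + δ))).card : ℝ) := by
  obtain ⟨e, R, T, S, D, hdata, hD, hDe⟩ := exists_data δ hδ M hM n₀ h₀ h₁
  obtain ⟨u₀, hu0, hu⟩ := base hdata
  obtain ⟨c', hc', hcount⟩ := count hdata hu0 hu
  obtain ⟨A, hA, hF⟩ := growth hdata.e0 hdata.R0 hdata.T0 hdata.hM hu0
  have hinj := inj hdata.e0 hdata.R0 hdata.T0 hdata.hM hu0
  generalize hM' : 2 * M = M' at *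
  obtain ⟨c'', hc'', hfin⟩ := to_X' (fun t => (n1 e R T (u₀ + (M' : ℤ) ^ 2 * t)).toNat) A 4 hA
    (by norm_num) hF (fun t t' _ _ => hinj t t')
    (fun t => Squarefree (n1 e R T (u₀ + M' ^ 2 * t)) ∧ Squarefree (n2 e R T δ (u₀ + M' ^ 2 * t)))
    (fun n : ℕ => n ≡ n₀ [MOD M] ∧ Squarefree n ∧ IsCong n ∧ Squarefree (n + δ) ∧ IsCong (n + δ))
    (by
      rintro t ht ⟨s1, s2⟩
      have hu1 : (1 : ℤ) ≤ u₀ := by exact_mod_cast hu0
      have h3 : (M' : ℤ) ^ 2 ∣ n1 e R T (u₀ + (M' : ℤ) ^ 2 * t) - n₀ := hu t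
      have hv1 : (0 : ℤ) < u₀ + (M' : ℤ) ^ 2 * t := by positivity
      generalize (u₀ : ℤ) + (M' : ℤ) ^ 2 * t = v at *
      have h1 := n1_pos hdata.e0 hdata.R0 hdata.T0 hv1
      have hn : (((n1 e R T v).toNat : ℕ) : ℤ) = n1 e R T v := Int.toNat_of_nonneg h1.le
      have hn2 : (((n1 e R T v).toNat + δ : ℕ) : ℤ) = n2 e R T δ v := by
        push_cast
        rw [hn, n2_eq hdata.hT]
      obtain ⟨g1, g2⟩ := cong1 hdata hD hDe hv1
      refine ⟨?_, ?_, g1, ?_, g2⟩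
      · have h4 : (M : ℤ) ∣ n1 e R T v - n₀ := by
          refine Dvd.dvd.trans ?_ ((dvd_pow_self _ two_ne_zero).trans h3)
          exact ⟨2, by rw [← hM']; push_cast; ring⟩
        have h5 : (n₀ : ℤ) ≡ (n1 e R T v).toNat [ZMOD M] := by
          rw [Int.modEq_iff_dvd, hn]
          exact h4
        exact ((Int.natCast_modEq_iff).1 h5).symm
      · exact Int.squarefree_natCast.1 (by rw [hn]; exact s1)
      · exact Int.squarefree_natCast.1 (by rw [hn2]; exact s2))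
    hc' (by
      filter_upwards [hcount] with Y hY
      convert hY)
  refine ⟨c'', hc'', ?_⟩
  have e4 : (1 / ((4 : ℕ) : ℝ)) = (1 / 4 : ℝ) := by norm_num
  rw [e4] at hfin
  filter_upwards [hfin] with X hX
  convert hX

end Pool.Agent.TH999.DCN
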