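import Pool.Agent.TH999.DCN.Fam

set_option autoImplicit false

/-!
# The squarefree sieve for the two polynomials
-/

namespace Pool.Agent.TH999.DCN

open Finset Filter Pool.Agent.TH4.CT
open scoped Classical

/-- the data -/
structure Data (e R T S δ : ℤ) (M n₀ : ℕ) : Prop where
  e0 : 0 < e
  R0 : 0 < R
  T0 : 0 < T
  S0 : 0 < S
  δ0 : 0 < δ
  hT : R ^ 2 + 2 * e * δ = T ^ 2
  hS : R ^ 2 - 2 * e * δ = S ^ 2
  /-- `e` and `T` have no common prime factor -/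
  copeT : ∀ p : ℕ, p.Prime → (p : ℤ) ∣ e → ¬ (p : ℤ) ∣ T
  copRT : ∀ p : ℕ, p.Prime → (p : ℤ) ∣ R → ¬ (p : ℤ) ∣ T
  /-- `2 e` is a square -/
  hsq : ∃ D : ℤ, D ^ 2 = 2 * e
  hM : 0 < M
  hM2 : 2 ∣ M
  hMe : (M : ℤ) ^ 2 ∣ e
  hn : Squarefree (n₀ : ℤ)
  hn' : Squarefree ((n₀ : ℤ) + δ)

variable {e R T S δ : ℤ} {M n₀ : ℕ}

lemma gcd_g {p : ℤ} (hp : Prime p) (hT : ¬ p ∣ T) (u : ℤ) :
    ¬ (p ∣ g0 u ∧ p ∣ g1 e R T u) ∧ ¬ (p ∣ g0 u ∧ p ∣ g2 e R T u) ∧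
      ¬ (p ∣ g1 e R T u ∧ p ∣ g2 e R T u) := by
  refine ⟨?_, ?_, ?_⟩
  · rintro ⟨h1, h2⟩
    unfold g0 at h1
    unfold g1 at h2
    exact hT ((dvd_add_right (h1.mul_left _)).1 h2)
  · rintro ⟨h1, h2⟩
    unfold g0 at h1
    have e1 : T ^ 2 = g2 e R T u - u * (2 * e ^ 2 * R ^ 4 * u + 2 * T * e * R ^ 2) := by
      unfold g2; ring
    apply hT
    apply hp.dvd_of_dvd_pow (n := 2)
    rw [e1]
    exact dvd_sub h2 (h1.mul_right _)
  · rintro ⟨h1, h2⟩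
    have e1 : T ^ 2 = g2 e R T u - g1 e R T u * (2 * e * R ^ 2 * u) := by
      unfold g2 g1; ring
    apply hT
    apply hp.dvd_of_dvd_pow (n := 2)
    rw [e1]
    exact dvd_sub h2 (h1.mul_right _)

lemma gcd_g' {p : ℤ} (hp : Prime p) (hSS : ¬ p ∣ S) (hS : R ^ 2 - 2 * e * δ = S ^ 2) (u : ℤ) :
    ¬ (p ∣ g3 e R T δ u ∧ p ∣ g4 e R T u) := by
  rintro ⟨h1, h2⟩
  have e1 : S ^ 2 = g4 e R T u * R ^ 2 - g3 e R T δ u * (2 * e) := by
    rw [← hS]; unfold g3 g4; ring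
  apply hSS
  apply hp.dvd_of_dvd_pow (n := 2)
  rw [e1]
  exact dvd_sub (h2.mul_right _) (h1.mul_right _)

lemma split2 {p : ℕ} (hp : p.Prime) {a b : ℤ} (h : (p : ℤ) ^ 2 ∣ a * b)
    (hn : ¬ ((p : ℤ) ∣ a ∧ (p : ℤ) ∣ b)) : (p : ℤ) ^ 2 ∣ a ∨ (p : ℤ) ^ 2 ∣ b := by
  by_cases ha : (p : ℤ) ∣ a
  · have hb : ¬ (p : ℤ) ∣ b := fun hb => hn ⟨ha, hb⟩
    exact Or.inl (((isCoprime_of hp hb).pow_left).dvd_of_dvd_mul_right h)
  · exact Or.inr (((isCoprime_of hp ha).pow_left).dvd_of_dvd_mul_left h)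

/-- the five factors -/
def gg (e R T δ : ℤ) : Fin 5 → ℤ → ℤ := ![g0, g1 e R T, g2 e R T, g3 e R T δ, g4 e R T]

/-- the two numbers -/
def nn (e R T δ : ℤ) (j : Bool) : ℤ → ℤ := if j then n1 e R T else n2 e R T δ

lemma not_dvd_of_large {p : ℕ} {N : ℤ} (hN : 0 < N) (hp : N.toNat < p) : ¬ (p : ℤ) ∣ N := by
  intro h
  have := Int.le_of_dvd hN h
  omega

lemma roots (h : Data e R T S δ M n₀) {p : ℕ} (hp : p.Prime) (hN : ¬ (p : ℤ) ∣ 2 * e * R * T * S)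
    (i : Fin 5) : TwoRoots p (gg e R T δ i) := by
  have hpp : Prime (p : ℤ) := Nat.prime_iff_prime_int.1 hp
  have c2 : ¬ (p : ℤ) ∣ 2 := fun hh => hN ((((hh.mul_right _).mul_right _).mul_right _).mul_right _)
  have ce : ¬ (p : ℤ) ∣ e := fun hh => hN ((((hh.mul_left _).mul_right _).mul_right _).mul_right _)
  have cR : ¬ (p : ℤ) ∣ R := fun hh => hN (((hh.mul_left _).mul_right _).mul_right _)
  have cT : ¬ (p : ℤ) ∣ T := fun hh => hN ((hh.mul_left _).mul_right _)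
  have cS : ¬ (p : ℤ) ∣ S := fun hh => hN (hh.mul_left _)
  have mul : ∀ {a b : ℤ}, ¬ (p : ℤ) ∣ a → ¬ (p : ℤ) ∣ b → ¬ (p : ℤ) ∣ a * b :=
    fun ha hb hh => (hpp.dvd_or_dvd hh).elim ha hb
  have pow : ∀ {a : ℤ} (k : ℕ), ¬ (p : ℤ) ∣ a → ¬ (p : ℤ) ∣ a ^ k :=
    fun k ha hh => ha (hpp.dvd_of_dvd_pow hh)
  have hT := h.hT
  have hS := h.hS
  fin_cases i
  · have e1 : gg e R T δ 0 = fun u => 1 * u + 0 := by
      ext u; simp [gg, g0]
    show TwoRoots p (gg e R T δ 0)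
    rw [e1]
    exact twoRoots_linear hp _ _ (fun hh => hpp.not_isUnit (isUnit_of_dvd_one hh))
  · have e1 : gg e R T δ 1 = fun u => (e * R ^ 2) * u + T := by
      ext u; simp [gg, g1]
    show TwoRoots p (gg e R T δ 1)
    rw [e1]
    exact twoRoots_linear hp _ _ (mul ce (pow 2 cR))
  · have e1 : gg e R T δ 2 = fun u => (2 * e ^ 2 * R ^ 4) * u ^ 2 + (2 * T * e * R ^ 2) * u +
        T ^ 2 := by
      ext u; simp [gg, g2]
    show TwoRoots p (gg e R T δ 2)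
    rw [e1]
    apply twoRoots_quadratic hp _ _ _ (mul (mul c2 (pow 2 ce)) (pow 4 cR))
    have e2 : (2 * T * e * R ^ 2) ^ 2 - 4 * (2 * e ^ 2 * R ^ 4) * T ^ 2 =
      -(2 ^ 2 * e ^ 2 * R ^ 4 * T ^ 2) := by ring
    rw [e2, dvd_neg]
    exact mul (mul (mul (pow 2 c2) (pow 2 ce)) (pow 4 cR)) (pow 2 cT)
  · have e1 : gg e R T δ 3 = fun u => (e * R ^ 4) * u ^ 2 + (T * R ^ 2) * u + δ := by
      ext u; simp [gg, g3]
    show TwoRoots p (gg e R T δ 3)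
    rw [e1]
    apply twoRoots_quadratic hp _ _ _ (mul ce (pow 4 cR))
    have e2 : (T * R ^ 2) ^ 2 - 4 * (e * R ^ 4) * δ = R ^ 4 * S ^ 2 := by
      rw [← hS, mul_pow, ← hT]; ring
    rw [e2]
    exact mul (pow 4 cR) (pow 2 cS)
  · have e1 : gg e R T δ 4 = fun u => (2 * e ^ 2 * R ^ 2) * u ^ 2 + (2 * e * T) * u + 1 := by
      ext u; simp [gg, g4]
    show TwoRoots p (gg e R T δ 4)
    rw [e1]
    apply twoRoots_quadratic hp _ _ _ (mul (mul c2 (pow 2 ce)) (pow 2 cR))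
    have e2 : (2 * e * T) ^ 2 - 4 * (2 * e ^ 2 * R ^ 2) * 1 = -(2 ^ 2 * e ^ 2 * S ^ 2) := by
      rw [← hS, mul_pow, ← hT]; ring
    rw [e2, dvd_neg]
    exact mul (mul (pow 2 c2) (pow 2 ce)) (pow 2 cS)

lemma fac (h : Data e R T S δ M n₀) {p : ℕ} (hp : p.Prime) (hN : ¬ (p : ℤ) ∣ 2 * e * R * T * S)
    (j : Bool) (u : ℤ) (hd : (p : ℤ) ^ 2 ∣ nn e R T δ j u) :
    ∃ i : Fin 5, (p : ℤ) ^ 2 ∣ gg e R T δ i u := by
  have hpp : Prime (p : ℤ) := Nat.prime_iff_prime_int.1 hp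
  have cT : ¬ (p : ℤ) ∣ T := fun hh => hN ((hh.mul_left _).mul_right _)
  have cS : ¬ (p : ℤ) ∣ S := fun hh => hN (hh.mul_left _)
  cases j
  · have hd' : (p : ℤ) ^ 2 ∣ g3 e R T δ u * g4 e R T u := hd
    rcases split2 hp hd' (gcd_g' hpp cS h.hS u) with h1 | h1
    · exact ⟨3, h1⟩
    · exact ⟨4, h1⟩
  · have hd' : (p : ℤ) ^ 2 ∣ g0 u * (g1 e R T u * g2 e R T u) := hd
    obtain ⟨k1, k2, k3⟩ := gcd_g (e := e) (R := R) hpp cT u
    have k4 : ¬ ((p : ℤ) ∣ g0 u ∧ (p : ℤ) ∣ g1 e R T u * g2 e R T u) := by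
      rintro ⟨a1, a2⟩
      rcases hpp.dvd_or_dvd a2 with a3 | a3
      · exact k1 ⟨a1, a3⟩
      · exact k2 ⟨a1, a3⟩
    rcases split2 hp hd' k4 with h1 | h1
    · exact ⟨0, h1⟩
    · rcases split2 hp h1 k3 with h2 | h2
      · exact ⟨1, h2⟩
      · exact ⟨2, h2⟩

/-- the bound for the factors -/
def KK (e R T δ : ℤ) : ℤ := 1 + (e * R ^ 2 + T) + (2 * e ^ 2 * R ^ 4 + 2 * T * e * R ^ 2 + T ^ 2) +
  (e * R ^ 4 + T * R ^ 2 + δ) + (2 * e ^ 2 * R ^ 2 + 2 * e * T + 1)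

lemma gg_bd (h : Data e R T S δ M n₀) (i : Fin 5) {u : ℤ} (hu : 1 ≤ u) :
    0 < gg e R T δ i u ∧ gg e R T δ i u ≤ KK e R T δ * u ^ 2 := by
  have he := h.e0
  have hR := h.R0
  have hT := h.T0
  have hδ := h.δ0
  have hu0 : 0 < u := by omega
  have hu2 : u ≤ u ^ 2 := by nlinarith
  have hu3 : 1 ≤ u ^ 2 := by nlinarith
  have q1 : 0 < e * R ^ 2 := by positivity
  have q2 : 0 < 2 * e ^ 2 * R ^ 4 := by positivity
  have q3 : 0 < 2 * T * e * R ^ 2 := by positivity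
  have q4 : 0 < T ^ 2 := by positivity
  have q5 : 0 < e * R ^ 4 := by positivity
  have q6 : 0 < T * R ^ 2 := by positivity
  have q7 : 0 < 2 * e ^ 2 * R ^ 2 := by positivity
  have q8 : 0 < 2 * e * T := by positivity
  have lin : ∀ a b c : ℤ, 0 ≤ a → 0 ≤ b → 0 ≤ c → a * u ^ 2 + b * u + c ≤ (a + b + c) * u ^ 2 := by
    intro a b c _ hb hc
    nlinarith [mul_le_mul_of_nonneg_left hu2 hb, mul_le_mul_of_nonneg_left hu3 hc]
  have up : ∀ a : ℤ, a ≤ KK e R T δ → a * u ^ 2 ≤ KK e R T δ * u ^ 2 := fun a ha =>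
    mul_le_mul_of_nonneg_right ha (by positivity)
  fin_cases i
  · constructor
    · exact hu0
    · refine le_trans ?_ (up 1 (by unfold KK; linarith))
      show g0 u ≤ _
      unfold g0
      linarith
  · constructor
    · show 0 < g1 e R T u
      unfold g1; positivity
    · refine le_trans ?_ (up (e * R ^ 2 + T) (by unfold KK; linarith))
      show g1 e R T u ≤ _
      unfold g1
      have := lin 0 (e * R ^ 2) T le_rfl q1.le hT.le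
      linarith
  · constructor
    · show 0 < g2 e R T u
      unfold g2; positivity
    · refine le_trans ?_ (up (2 * e ^ 2 * R ^ 4 + 2 * T * e * R ^ 2 + T ^ 2) (by unfold KK; linarith))
      show g2 e R T u ≤ _
      unfold g2
      exact lin _ _ _ q2.le q3.le q4.le
  · constructor
    · show 0 < g3 e R T δ u
      unfold g3; positivity
    · refine le_trans ?_ (up (e * R ^ 4 + T * R ^ 2 + δ) (by unfold KK; linarith))
      show g3 e R T δ u ≤ _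
      unfold g3
      exact lin _ _ _ q5.le q6.le hδ.le
  · constructor
    · show 0 < g4 e R T u
      unfold g4; positivity
    · refine le_trans ?_ (up (2 * e ^ 2 * R ^ 2 + 2 * e * T + 1) (by unfold KK; linarith))
      show g4 e R T u ≤ _
      unfold g4
      exact lin _ _ _ q7.le q8.le zero_le_one

/-- the base point -/
lemma base (h : Data e R T S δ M n₀) :
    ∃ u₀ : ℕ, 0 < u₀ ∧ ∀ t : ℤ, (M : ℤ) ^ 2 ∣ n1 e R T (u₀ + M ^ 2 * t) - n₀ := by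
  have hM := h.hM
  have hM0 : (0 : ℤ) < (M : ℤ) ^ 2 := by positivity
  have hc : IsCoprime (T ^ 3) ((M : ℤ) ^ 2) := by
    apply IsCoprime.pow
    apply isCoprime_of_prime_dvd
    · rintro ⟨h0, _⟩
      exact h.T0.ne' h0
    · intro p hp h1 h2
      have h3 : p ∣ e := (h2.trans (dvd_pow_self _ two_ne_zero)).trans h.hMe
      have hpn : p.natAbs.Prime := Int.prime_iff_natAbs_prime.1 hp
      exact h.copeT p.natAbs hpn (Int.natAbs_dvd.2 h3) (Int.natAbs_dvd.2 h1)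
  obtain ⟨a, b, hab⟩ := hc
  refine ⟨((a * n₀) % (M : ℤ) ^ 2 + (M : ℤ) ^ 2).toNat, ?_, fun t => ?_⟩
  · have := Int.emod_nonneg (a * n₀) hM0.ne'
    omega
  · have h1 := Int.emod_nonneg (a * n₀) hM0.ne'
    rw [Int.toNat_of_nonneg (by omega)]
    have h2 : (a * n₀) % (M : ℤ) ^ 2 = a * n₀ - (M : ℤ) ^ 2 * ((a * n₀) / (M : ℤ) ^ 2) := by
      have := Int.emod_add_mul_ediv (a * n₀) ((M : ℤ) ^ 2)
      linarith
    rw [h2, n1_expand]
    set v : ℤ := a * n₀ - (M : ℤ) ^ 2 * ((a * n₀) / (M : ℤ) ^ 2) + (M : ℤ) ^ 2 + (M : ℤ) ^ 2 * t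
      with hv
    have h3 : T ^ 3 * v + e * R ^ 2 * (2 * e ^ 2 * R ^ 4 * v ^ 4 + 4 * T * e * R ^ 2 * v ^ 3 +
        3 * T ^ 2 * v ^ 2) - n₀ = (M : ℤ) ^ 2 * (T ^ 3 * (1 + t - (a * n₀) / (M : ℤ) ^ 2) - b * n₀) +
        e * (R ^ 2 * (2 * e ^ 2 * R ^ 4 * v ^ 4 + 4 * T * e * R ^ 2 * v ^ 3 +
        3 * T ^ 2 * v ^ 2)) := by
      have h4 : T ^ 3 * v = T ^ 3 * (a * n₀) + (M : ℤ) ^ 2 * (T ^ 3 * (1 + t -
        (a * n₀) / (M : ℤ) ^ 2)) := by rw [hv]; ring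
      linear_combination h4 + (n₀ : ℤ) * hab
    rw [h3]
    exact dvd_add (dvd_mul_right _ _) (h.hMe.mul_right _)

/-- no local obstruction -/
lemma loc (h : Data e R T S δ M n₀) {u₀ : ℕ}
    (hu : ∀ t : ℤ, (M : ℤ) ^ 2 ∣ n1 e R T (u₀ + M ^ 2 * t) - n₀) {p : ℕ} (hp : p.Prime) :
    ∃ t : ℕ, ¬ (p : ℤ) ^ 2 ∣ n1 e R T (u₀ + M ^ 2 * t) ∧
      ¬ (p : ℤ) ^ 2 ∣ n2 e R T δ (u₀ + M ^ 2 * t) := by
  have hpp : Prime (p : ℤ) := Nat.prime_iff_prime_int.1 hp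
  have notsq : ∀ x : ℤ, Squarefree x → ¬ (p : ℤ) ^ 2 ∣ x := by
    intro x hx hd
    rw [sq] at hd
    exact hpp.not_isUnit (hx _ hd)
  by_cases hpM : p ∣ M
  · refine ⟨0, ?_, ?_⟩
    · intro hd
      have h1 : (p : ℤ) ^ 2 ∣ (M : ℤ) ^ 2 := pow_dvd_pow_of_dvd (by exact_mod_cast hpM) 2
      have h2 := (hu ((0 : ℕ) : ℤ))
      have h3 := dvd_sub hd (h1.trans h2)
      rw [sub_sub_cancel] at h3
      exact notsq _ h.hn h3
    · intro hd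
      rw [n2_eq h.hT] at hd
      have h1 : (p : ℤ) ^ 2 ∣ (M : ℤ) ^ 2 := pow_dvd_pow_of_dvd (by exact_mod_cast hpM) 2
      have h2 := (hu ((0 : ℕ) : ℤ))
      have h3 := dvd_sub hd (h1.trans h2)
      have e1 : n1 e R T (u₀ + M ^ 2 * ((0 : ℕ) : ℤ)) + δ - (n1 e R T (u₀ + M ^ 2 * ((0 : ℕ) : ℤ)) -
        n₀) = n₀ + δ := by ring
      rw [e1] at h3
      exact notsq _ h.hn' h3
  · have hp2 : p ≠ 2 := by
      rintro rfl
      exact hpM h.hM2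
    have hp3 : 3 ≤ p := by
      have := hp.two_le
      omega
    have cM : ¬ (p : ℤ) ∣ (M : ℤ) ^ 2 := fun hh => hpM (by exact_mod_cast hpp.dvd_of_dvd_pow hh)
    have c2 : ¬ (p : ℤ) ∣ 2 := fun hh => by
      have := Int.le_of_dvd (by norm_num) hh
      omega
    by_cases hpe : (p : ℤ) ∣ e * R
    · have cT : ¬ (p : ℤ) ∣ T := by
        rcases hpp.dvd_or_dvd hpe with h1 | h1
        · exact h.copeT p hp h1
        · exact h.copRT p hp h1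
      have hsq : (p : ℤ) ^ 2 ∣ e * R ^ 2 := by
        rcases hpp.dvd_or_dvd hpe with h1 | h1
        · obtain ⟨D, hD⟩ := h.hsq
          have h2 : (p : ℤ) ∣ D := hpp.dvd_of_dvd_pow (n := 2) (by rw [hD]; exact h1.mul_left _)
          have h3 : (p : ℤ) ^ 2 ∣ 2 * e := by rw [← hD]; exact pow_dvd_pow_of_dvd h2 2
          exact (((isCoprime_of hp c2).pow_left).dvd_of_dvd_mul_left h3).mul_right _
        · exact (pow_dvd_pow_of_dvd h1 2).mul_left _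
      have c3 : ¬ (p : ℤ) ∣ T ^ 3 * (M : ℤ) ^ 2 := by
        intro hh
        rcases hpp.dvd_or_dvd hh with h4 | h4
        · exact cT (hpp.dvd_of_dvd_pow h4)
        · exact cM h4
      have small : ∀ c : ℤ, 1 ≤ c → c ≤ 2 → ¬ (p : ℤ) ^ 2 ∣ c := by
        intro c h1 h2 h3
        have h4 := Int.le_of_dvd (by omega) h3
        have h5 : (3 : ℤ) ≤ p := by exact_mod_cast hp3
        nlinarith
      obtain ⟨c, hc1, hc2, hc3⟩ : ∃ c : ℤ, 1 ≤ c ∧ c ≤ 2 ∧ ¬ (p : ℤ) ^ 2 ∣ c + δ := by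
        by_cases h1 : (p : ℤ) ^ 2 ∣ 1 + δ
        · refine ⟨2, by norm_num, le_rfl, fun h2 => ?_⟩
          have h3 := dvd_sub h2 h1
          have e1 : (2 : ℤ) + δ - (1 + δ) = 1 := by ring
          rw [e1] at h3
          exact small 1 le_rfl (by norm_num) h3
        · exact ⟨1, le_rfl, by norm_num, h1⟩
      obtain ⟨t, ht⟩ := solve_lin hp (T ^ 3 * (M : ℤ) ^ 2) (T ^ 3 * u₀ - c) c3
      have key : (p : ℤ) ^ 2 ∣ n1 e R T (u₀ + M ^ 2 * t) - c := by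
        rw [n1_expand]
        have e1 : T ^ 3 * (u₀ + M ^ 2 * t) + e * R ^ 2 * (2 * e ^ 2 * R ^ 4 * (u₀ + M ^ 2 * t) ^ 4 +
            4 * T * e * R ^ 2 * (u₀ + M ^ 2 * t) ^ 3 + 3 * T ^ 2 * (u₀ + M ^ 2 * t) ^ 2) - c =
            (T ^ 3 * (M : ℤ) ^ 2 * t + (T ^ 3 * u₀ - c)) +
            e * R ^ 2 * (2 * e ^ 2 * R ^ 4 * (u₀ + M ^ 2 * t) ^ 4 +
            4 * T * e * R ^ 2 * (u₀ + M ^ 2 * t) ^ 3 + 3 * T ^ 2 * (u₀ + M ^ 2 * t) ^ 2) := by ring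
        rw [e1]
        exact dvd_add ht (hsq.mul_right _)
      refine ⟨t, fun hd => ?_, fun hd => ?_⟩
      · have h1 := dvd_sub hd key
        rw [sub_sub_cancel] at h1
        exact small c hc1 hc2 h1
      · rw [n2_eq h.hT] at hd
        have h1 := dvd_sub hd key
        have e1 : n1 e R T (u₀ + M ^ 2 * t) + δ - (n1 e R T (u₀ + M ^ 2 * t) - c) = c + δ := by ring
        rw [e1] at h1
        exact hc3 h1
    · have ce : ¬ (p : ℤ) ∣ e := fun hh => hpe (hh.mul_right _)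
      have cR : ¬ (p : ℤ) ∣ R := fun hh => hpe (hh.mul_left _)
      have hST : ¬ ((p : ℤ) ∣ S ∧ (p : ℤ) ∣ T) := by
        rintro ⟨a1, a2⟩
        have e1 : 2 * R ^ 2 = T ^ 2 + S ^ 2 := by rw [← h.hT, ← h.hS]; ring
        have h1 : (p : ℤ) ∣ 2 * R ^ 2 := by
          rw [e1]; exact dvd_add (a2.pow two_ne_zero) (a1.pow two_ne_zero)
        rcases hpp.dvd_or_dvd h1 with h2 | h2
        · exact c2 h2
        · exact cR (hpp.dvd_of_dvd_pow h2)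
      obtain ⟨τ, ht1, ht2⟩ := star hp hp2 hST
      have c3 : ¬ (p : ℤ) ∣ 2 * e * R ^ 2 * (M : ℤ) ^ 2 := by
        intro hh
        rcases hpp.dvd_or_dvd hh with h4 | h4
        · rcases hpp.dvd_or_dvd h4 with h5 | h5
          · rcases hpp.dvd_or_dvd h5 with h6 | h6
            · exact c2 h6
            · exact ce h6
          · exact cR (hpp.dvd_of_dvd_pow h5)
        · exact cM h4
      obtain ⟨t, ht⟩ := solve_lin hp (2 * e * R ^ 2 * (M : ℤ) ^ 2) (T + 2 * e * R ^ 2 * u₀ - τ) c3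
      have key : (p : ℤ) ^ 2 ∣ (T + 2 * e * R ^ 2 * (u₀ + M ^ 2 * t)) ^ 4 - τ ^ 4 := by
        refine Dvd.dvd.trans ?_ (sub_dvd_pow_sub_pow _ _ 4)
        have e1 : T + 2 * e * R ^ 2 * (u₀ + M ^ 2 * t) - τ =
          2 * e * R ^ 2 * (M : ℤ) ^ 2 * t + (T + 2 * e * R ^ 2 * u₀ - τ) := by ring
        rw [e1]
        exact ht
      refine ⟨t, fun hd => ?_, fun hd => ?_⟩
      · have h1 : (p : ℤ) ^ 2 ∣ 8 * e * R ^ 2 * n1 e R T (u₀ + M ^ 2 * t) := hd.mul_left _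
        rw [n1_sq] at h1
        apply ht1
        have h2 := dvd_sub h1 key
        have e1 : (T + 2 * e * R ^ 2 * (u₀ + M ^ 2 * t)) ^ 4 - T ^ 4 -
          ((T + 2 * e * R ^ 2 * (u₀ + M ^ 2 * t)) ^ 4 - τ ^ 4) = τ ^ 4 - T ^ 4 := by ring
        rwa [e1] at h2
      · have h1 : (p : ℤ) ^ 2 ∣ 8 * e * R ^ 2 * n2 e R T δ (u₀ + M ^ 2 * t) := hd.mul_left _
        rw [n2_sq h.hT h.hS] at h1
        apply ht2
        have h2 := dvd_sub h1 key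
        have e1 : (T + 2 * e * R ^ 2 * (u₀ + M ^ 2 * t)) ^ 4 - S ^ 4 -
          ((T + 2 * e * R ^ 2 * (u₀ + M ^ 2 * t)) ^ 4 - τ ^ 4) = τ ^ 4 - S ^ 4 := by ring
        rwa [e1] at h2

end Pool.Agent.TH999.DCN
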