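import Mathlib

set_option autoImplicit false

/-!
# The equations `R² - δ D² = S²`, `R² + δ D² = T²`: solutions with `D` divisible by a given number
-/

namespace Pool.Agent.TH999.DCN

/-- coprime solutions -/
structure Sol (δ R D S T : ℤ) : Prop where
  h1 : R ^ 2 - δ * D ^ 2 = S ^ 2
  h2 : R ^ 2 + δ * D ^ 2 = T ^ 2
  cop : IsCoprime R D
  hD : D ≠ 0

variable {δ R D S T : ℤ}

lemma no_common {x y p : ℤ} (h : IsCoprime x y) (hp : Prime p) (hx : p ∣ x) (hy : p ∣ y) :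
    False := hp.not_isUnit (h.isUnit_of_dvd' hx hy)

lemma Sol.R_ne (h : Sol δ R D S T) (hδ : 0 < δ) : R ≠ 0 := by
  rintro rfl
  have h1 := h.h1
  have h3 : 0 < D ^ 2 := by have := h.hD; positivity
  nlinarith [sq_nonneg S, mul_pos hδ h3]

lemma Sol.T_ne (h : Sol δ R D S T) (hδ : 0 < δ) : T ≠ 0 := by
  rintro rfl
  have h1 := h.h2
  have h3 : 0 < D ^ 2 := by have := h.hD; positivity
  nlinarith [sq_nonneg R, mul_pos hδ h3]

lemma Sol.S_ne (h : Sol δ R D S T) (hδ : 0 < δ) : S ≠ 0 := by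
  intro hS
  have h1 := h.h1
  have h2 := h.h2
  rw [hS] at h1
  have h3 : T ^ 2 = 2 * R ^ 2 := by linarith
  have h4 : (T : ℚ) ^ 2 = 2 * (R : ℚ) ^ 2 := by exact_mod_cast h3
  have hR : (R : ℚ) ≠ 0 := by exact_mod_cast h.R_ne hδ
  have h5 : IsSquare (2 : ℚ) := ⟨T / R, by field_simp; linarith⟩
  have h6 : ¬ IsSquare (2 : ℕ) := by
    rintro ⟨r, hr⟩
    have : r ≤ 1 := by nlinarith
    interval_cases r <;> omega
  exact h6 (by exact_mod_cast (Rat.isSquare_natCast_iff (n := 2)).1 (by exact_mod_cast h5))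

lemma Sol.cop_δ (h : Sol δ R D S T) (hsq : Squarefree δ) : IsCoprime R δ := by
  apply isCoprime_of_prime_dvd
  · rintro ⟨_, h0⟩
    exact hsq.ne_zero h0
  · intro p hp hR hd
    have h1 : p ∣ S ^ 2 := by
      rw [← h.h1]
      exact dvd_sub (hR.pow two_ne_zero) (hd.mul_right _)
    have h2 : p ∣ S := hp.dvd_of_dvd_pow h1
    have h3 : p ^ 2 ∣ δ * D ^ 2 := by
      have e : δ * D ^ 2 = R ^ 2 - S ^ 2 := by rw [← h.h1]; ring
      rw [e]
      exact dvd_sub (pow_dvd_pow_of_dvd hR 2) (pow_dvd_pow_of_dvd h2 2)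
    have h4 : IsCoprime (p ^ 2) (D ^ 2) := by
      apply IsCoprime.pow
      rw [Prime.coprime_iff_not_dvd hp]
      exact fun h5 => no_common h.cop hp hR h5
    have h5 : p * p ∣ δ := by
      rw [← sq]
      exact h4.dvd_of_dvd_mul_right h3
    exact hp.not_isUnit (hsq p h5)

lemma Sol.even_D (h : Sol δ R D S T) (hsq : Squarefree δ) : 2 ∣ D := by
  have h4 : ¬ (4 : ℤ) ∣ δ := by
    intro h4
    have := hsq 2 (by norm_num; exact h4)
    rw [Int.isUnit_iff] at this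
    omega
  have hc : ¬ ((2 : ℤ) ∣ R ∧ (2 : ℤ) ∣ δ) := fun hh =>
    no_common (h.cop_δ hsq) Int.prime_two hh.1 hh.2
  by_contra hD
  have h1 := h.h1
  have h2 := h.h2
  obtain ⟨d, hd⟩ : ∃ d, D = 2 * d + 1 := ⟨D / 2, by omega⟩
  have hD2 : D ^ 2 = 4 * (d ^ 2 + d) + 1 := by rw [hd]; ring
  have h3 : T ^ 2 - S ^ 2 = 2 * δ * D ^ 2 := by linarith
  rcases Int.even_or_odd' δ with ⟨e, he | he⟩
  · -- δ even, R odd
    have hR : ¬ (2 : ℤ) ∣ R := fun hR => hc ⟨hR, ⟨e, he⟩⟩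
    obtain ⟨r, hr⟩ : ∃ r, R = 2 * r + 1 := ⟨R / 2, by omega⟩
    have hS : ¬ (2 : ℤ) ∣ S := by
      rintro ⟨s, hs⟩
      rw [hr, hs, he] at h1
      have : 2 * (2 * r ^ 2 + 2 * r - e * D ^ 2 - 2 * s ^ 2) = -1 := by linarith
      omega
    have hT : ¬ (2 : ℤ) ∣ T := by
      rintro ⟨s, hs⟩
      rw [hr, hs, he] at h2
      have : 2 * (2 * r ^ 2 + 2 * r + e * D ^ 2 - 2 * s ^ 2) = -1 := by linarith
      omega
    obtain ⟨s, hs⟩ : ∃ s, S = 2 * s + 1 := ⟨S / 2, by omega⟩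
    obtain ⟨t, ht⟩ : ∃ t, T = 2 * t + 1 := ⟨T / 2, by omega⟩
    have e1 : s * (s + 1) = 2 * (s * (s + 1) / 2) := by
      have := Int.even_mul_succ_self s
      rw [Int.even_iff] at this
      omega
    have e2 : t * (t + 1) = 2 * (t * (t + 1) / 2) := by
      have := Int.even_mul_succ_self t
      rw [Int.even_iff] at this
      omega
    have h5 : T ^ 2 - S ^ 2 = 8 * (t * (t + 1) / 2 - s * (s + 1) / 2) := by
      rw [hs, ht]; linarith
    have h6 : 2 * δ * D ^ 2 = 16 * (e * (d ^ 2 + d)) + 4 * e := by rw [hD2, he]; ring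
    have h7 : e % 2 = 1 := by
      by_contra h7
      exact h4 (by rw [he]; omega)
    omega
  · -- δ odd
    have h5 : 2 * δ * D ^ 2 = 4 * (2 * e * (2 * (d ^ 2 + d)) + 2 * (d ^ 2 + d) + e) + 2 := by
      rw [hD2, he]; ring
    rcases Int.even_or_odd' S with ⟨s, hs | hs⟩ <;> rcases Int.even_or_odd' T with ⟨t, ht | ht⟩
    · have : T ^ 2 - S ^ 2 = 4 * (t ^ 2 - s ^ 2) := by rw [hs, ht]; ring
      omega
    · have : T ^ 2 - S ^ 2 = 4 * (t ^ 2 + t - s ^ 2) + 1 := by rw [hs, ht]; ring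
      omega
    · have : T ^ 2 - S ^ 2 = 4 * (t ^ 2 - s ^ 2 - s) - 1 := by rw [hs, ht]; ring
      omega
    · have : T ^ 2 - S ^ 2 = 4 * (t ^ 2 + t - s ^ 2 - s) := by rw [hs, ht]; ring
      omega

lemma Sol.dbl (h : Sol δ R D S T) (hsq : Squarefree δ) (hδ : 0 < δ) :
    Sol δ (R ^ 4 + δ ^ 2 * D ^ 4) (2 * R * S * T * D) (R ^ 4 - 2 * δ * R ^ 2 * D ^ 2 - δ ^ 2 * D ^ 4)
      (R ^ 4 + 2 * δ * R ^ 2 * D ^ 2 - δ ^ 2 * D ^ 4) where
  h1 := by
    have e : (2 * R * S * T * D) ^ 2 = 4 * R ^ 2 * D ^ 2 * (S ^ 2 * T ^ 2) := by ring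
    rw [e, ← h.h1, ← h.h2]
    ring
  h2 := by
    have e : (2 * R * S * T * D) ^ 2 = 4 * R ^ 2 * D ^ 2 * (S ^ 2 * T ^ 2) := by ring
    rw [e, ← h.h1, ← h.h2]
    ring
  cop := by
    have hev := h.even_D hsq
    have hR2 : ¬ (2 : ℤ) ∣ R := fun hh => no_common h.cop Int.prime_two hh hev
    have hcδ := h.cop_δ hsq
    apply isCoprime_of_prime_dvd
    · rintro ⟨_, h0⟩
      have := h.R_ne hδ
      have := h.S_ne hδ
      have := h.T_ne hδ
      have := h.hD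
      simp_all
    · intro p hp h1 h2
      have c2 : ¬ p ∣ 2 := by
        intro hp2
        have hass : Associated p 2 := (hp.dvd_prime_iff_associated Int.prime_two).1 hp2
        have h3 : (2 : ℤ) ∣ R ^ 4 + δ ^ 2 * D ^ 4 := hass.dvd'.trans h1
        have h4 : (2 : ℤ) ∣ R ^ 4 := by
          have h5 : (2 : ℤ) ∣ δ ^ 2 * D ^ 4 := (hev.pow (by norm_num)).mul_left _
          exact (dvd_add_left h5).1 h3
        exact hR2 (Int.prime_two.dvd_of_dvd_pow h4)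
      have cD : ¬ p ∣ D := by
        intro hd
        have h4 : p ∣ R ^ 4 := (dvd_add_left ((hd.pow (by norm_num)).mul_left _)).1 h1
        exact no_common h.cop hp (hp.dvd_of_dvd_pow h4) hd
      have cR : ¬ p ∣ R := by
        intro hd
        have h4 : p ∣ δ ^ 2 * D ^ 4 := (dvd_add_right (hd.pow (by norm_num))).1 h1
        rcases hp.dvd_or_dvd h4 with h5 | h5
        · exact no_common hcδ hp hd (hp.dvd_of_dvd_pow h5)
        · exact cD (hp.dvd_of_dvd_pow h5)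
      have cST : ¬ p ∣ S ^ 2 * T ^ 2 := by
        intro hd
        have e : 2 * R ^ 4 = (R ^ 4 + δ ^ 2 * D ^ 4) + S ^ 2 * T ^ 2 := by
          rw [← h.h1, ← h.h2]; ring
        have h4 : p ∣ 2 * R ^ 4 := by rw [e]; exact dvd_add h1 hd
        rcases hp.dvd_or_dvd h4 with h5 | h5
        · exact c2 h5
        · exact cR (hp.dvd_of_dvd_pow h5)
      rcases hp.dvd_or_dvd h2 with h3 | h3
      · rcases hp.dvd_or_dvd h3 with h3 | h3
        · rcases hp.dvd_or_dvd h3 with h3 | h3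
          · rcases hp.dvd_or_dvd h3 with h3 | h3
            · exact c2 h3
            · exact cR h3
          · exact cST ((h3.pow two_ne_zero).mul_right _)
        · exact cST ((h3.pow two_ne_zero).mul_left _)
      · exact cD h3
  hD := by
    have := h.R_ne hδ
    have := h.S_ne hδ
    have := h.T_ne hδ
    have := h.hD
    positivity

/-- reduction to lowest terms -/
lemma reduce (h1 : R ^ 2 - δ * D ^ 2 = S ^ 2) (h2 : R ^ 2 + δ * D ^ 2 = T ^ 2) (hD : D ≠ 0)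
    {M : ℤ} (hc : IsCoprime R M) (hM : M ∣ D) :
    ∃ R' D' S' T' : ℤ, Sol δ R' D' S' T' ∧ M ∣ D' := by
  have hg : 0 < Int.gcd R D := Int.gcd_pos_of_ne_zero_right _ hD
  obtain ⟨R', hR'⟩ := Int.gcd_dvd_left R D
  obtain ⟨D', hD'⟩ := Int.gcd_dvd_right R D
  set g : ℤ := (Int.gcd R D : ℤ) with hgdef
  have hg0 : g ≠ 0 := by rw [hgdef]; exact_mod_cast hg.ne'
  have hS : g ^ 2 ∣ S ^ 2 := by
    rw [← h1, hR', hD']
    exact ⟨R' ^ 2 - δ * D' ^ 2, by ring⟩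
  have hT : g ^ 2 ∣ T ^ 2 := by
    rw [← h2, hR', hD']
    exact ⟨R' ^ 2 + δ * D' ^ 2, by ring⟩
  obtain ⟨S', hS'⟩ := (Int.pow_dvd_pow_iff two_ne_zero).1 hS
  obtain ⟨T', hT'⟩ := (Int.pow_dvd_pow_iff two_ne_zero).1 hT
  have hg2 : g ^ 2 ≠ 0 := pow_ne_zero 2 hg0
  refine ⟨R', D', S', T', ⟨?_, ?_, ?_, ?_⟩, ?_⟩
  · apply mul_left_cancel₀ hg2
    rw [hR', hD', hS'] at h1
    linarith
  · apply mul_left_cancel₀ hg2
    rw [hR', hD', hT'] at h2
    linarith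
  · have h3 : Int.gcd R' D' = 1 := by
      have h4 := Int.gcd_mul_left g R' D'
      rw [← hR', ← hD'] at h4
      have h5 : g.natAbs = Int.gcd R D := by rw [hgdef]; simp
      rw [h5] at h4
      exact Nat.eq_of_mul_eq_mul_left hg (by linarith)
    exact Int.isCoprime_iff_gcd_eq_one.2 h3
  · rintro rfl
    exact hD (by rw [hD']; ring)
  · have h3 : IsCoprime M g := (hc.of_isCoprime_of_dvd_left ⟨R', hR'⟩).symm
    rw [hD'] at hM
    exact h3.dvd_of_dvd_mul_left hM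

end Pool.Agent.TH999.DCN
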